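import Pool.Agent.Helper22.TW.Stmts

/-!
# Module EXK: embeddings of `F(t)`
-/

set_option autoImplicit false

namespace Pool.Agent.Helper22.TW

open Pool.Agent.Helper14.BSC Polynomial

/-- a subfield containing the constants and `t` is everything -/
theorem exk_top {F k : Type} [Field F] [Field k] [Algebra F k] {t : k} (ht : Gen F k t)
    (S : Subfield k) (hF : ∀ a : F, algebraMap F k a ∈ S) (htS : t ∈ S) (x : k) : x ∈ S := by
  let I : IntermediateField F k := S.toIntermediateField hF
  have h1 : IntermediateField.adjoin F {t} ≤ I := by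
    rw [IntermediateField.adjoin_le_iff]
    rintro y hy
    rw [Set.mem_singleton_iff.mp hy]
    exact htS
  have h2 : x ∈ IntermediateField.adjoin F {t} := by
    rw [ht.2]
    exact IntermediateField.mem_top
  exact h1 h2

theorem exk_inj {F k : Type} [Field F] [Field k] [Algebra F k] {t : k} (ht : Gen F k t) :
    Function.Injective (aeval t : F[X] →ₐ[F] k) :=
  transcendental_iff_injective.mp ht.1

theorem st_EXK : ST_EXK := by
  intro F k _ _ _ t ht p _ E
  refine ⟨?_, ?_, ?_⟩
  · intro σ hF hσt x
    exact exk_top ht (E.toSubfield.comap σ) hF hσt x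
  · intro σ σ' hF hσt
    ext x
    exact exk_top ht (σ.eqLocusField σ') hF hσt x
  · intro σ₀ τ hτ
    have hψ : (nonZeroDivisors F[X]) ≤ (nonZeroDivisors k).comap (aeval t : F[X] →ₐ[F] k).toRingHom := by
      intro P hP
      rw [Submonoid.mem_comap, mem_nonZeroDivisors_iff_ne_zero]
      intro h0
      apply nonZeroDivisors.ne_zero hP
      apply exk_inj ht
      simpa using h0
    have hφ : (nonZeroDivisors F[X]) ≤ (nonZeroDivisors ℂ_[p]).comap (eval₂RingHom σ₀ τ) := by
      intro P hP
      rw [Submonoid.mem_comap, mem_nonZeroDivisors_iff_ne_zero]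
      exact hτ P (nonZeroDivisors.ne_zero hP)
    let ψ : RatFunc F →+* k := RatFunc.liftRingHom (aeval t : F[X] →ₐ[F] k).toRingHom hψ
    let φ : RatFunc F →+* ℂ_[p] := RatFunc.liftRingHom (eval₂RingHom σ₀ τ) hφ
    have hψC : ∀ a : F, ψ (algebraMap F[X] (RatFunc F) (C a)) = algebraMap F k a := by
      intro a
      rw [RatFunc.liftRingHom_algebraMap]
      simp
    have hψX : ψ (algebraMap F[X] (RatFunc F) X) = t := by
      rw [RatFunc.liftRingHom_algebraMap]
      simp
    have hφC : ∀ a : F, φ (algebraMap F[X] (RatFunc F) (C a)) = σ₀ a := by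
      intro a
      rw [RatFunc.liftRingHom_algebraMap]
      simp
    have hφX : φ (algebraMap F[X] (RatFunc F) X) = τ := by
      rw [RatFunc.liftRingHom_algebraMap]
      simp
    have hsurj : Function.Surjective ψ := by
      intro x
      have := exk_top ht ψ.fieldRange (fun a => ⟨_, hψC a⟩) ⟨_, hψX⟩ x
      exact this
    let e : RatFunc F ≃+* k := RingEquiv.ofBijective ψ ⟨ψ.injective, hsurj⟩
    refine ⟨φ.comp e.symm.toRingHom, fun a => ?_, ?_⟩
    · have : e.symm (algebraMap F k a) = algebraMap F[X] (RatFunc F) (C a) := by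
        rw [RingEquiv.symm_apply_eq]
        exact (hψC a).symm
      rw [RingHom.comp_apply]
      change φ (e.symm (algebraMap F k a)) = _
      rw [this, hφC]
    · have : e.symm t = algebraMap F[X] (RatFunc F) X := by
        rw [RingEquiv.symm_apply_eq]
        exact hψX.symm
      rw [RingHom.comp_apply]
      change φ (e.symm t) = _
      rw [this, hφX]

end Pool.Agent.Helper22.TW
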