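import Pool.Agent.Helper22.TW.Stmts

/-!
# Module RAM2: a ramified quadratic extension
-/

set_option autoImplicit false

namespace Pool.Agent.Helper22.TW

open Pool.Agent.Helper14.BSC Polynomial

/-- elements of `E(ϖ)`, `ϖ ^ 2 ∈ E` -/
theorem ram2_mem' {p : ℕ} [Fact p.Prime] (E : IntermediateField ℚ_[p] ℂ_[p]) {ϖ : ℂ_[p]}
    (h2 : ϖ ^ 2 ∈ E) {z : ℂ_[p]} (hz : z ∈ Algebra.adjoin E {ϖ}) :
    ∃ a ∈ E, ∃ b ∈ E, z = a + b * ϖ := by
  induction hz using Algebra.adjoin_induction with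
  | mem x hx =>
    rw [Set.mem_singleton_iff.mp hx]
    exact ⟨0, E.zero_mem, 1, E.one_mem, by ring⟩
  | algebraMap r => exact ⟨(r : ℂ_[p]), r.2, 0, E.zero_mem, by simp⟩
  | add x y hx hy ihx ihy =>
    obtain ⟨a, ha, b, hb, rfl⟩ := ihx
    obtain ⟨a', ha', b', hb', rfl⟩ := ihy
    exact ⟨a + a', E.add_mem ha ha', b + b', E.add_mem hb hb', by ring⟩
  | mul x y hx hy ihx ihy =>
    obtain ⟨a, ha, b, hb, rfl⟩ := ihx
    obtain ⟨a', ha', b', hb', rfl⟩ := ihy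
    exact ⟨a * a' + b * b' * ϖ ^ 2,
      E.add_mem (E.mul_mem ha ha') (E.mul_mem (E.mul_mem hb hb') h2),
      a * b' + b * a', E.add_mem (E.mul_mem ha hb') (E.mul_mem hb ha'), by ring⟩

theorem st_RAM2 (hU : ST_UNF) : ST_RAM2 := by
  intro p _ E hE
  obtain ⟨ϖ0, h0E, hpos, hlt, hall⟩ := hU p E hE
  obtain ⟨ϖ, hϖ⟩ := IsAlgClosed.exists_pow_nat_eq ϖ0 (n := 2) (by norm_num)
  have h2E : ϖ ^ 2 ∈ E := by rw [hϖ]; exact h0E
  have hnorm : ‖ϖ‖ ^ 2 = ‖ϖ0‖ := by rw [← norm_pow, hϖ]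
  have hϖpos : 0 < ‖ϖ‖ := by
    rcases (norm_nonneg ϖ).eq_or_lt with h | h
    · rw [← h] at hnorm
      norm_num at hnorm
      rw [hnorm] at hpos
      simp at hpos
    · exact h
  have hϖlt : ‖ϖ‖ < 1 := by
    by_contra h
    rw [not_lt] at h
    have : 1 ≤ ‖ϖ‖ ^ 2 := one_le_pow₀ h
    linarith
  have hint : IsIntegral E ϖ := by
    refine ⟨X ^ 2 - C (⟨ϖ ^ 2, h2E⟩ : E), monic_X_pow_sub_C _ two_ne_zero, ?_⟩
    simp only [eval₂_sub, eval₂_pow, eval₂_X, eval₂_C]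
    rw [sub_eq_zero]
    rfl
  let A : IntermediateField E ℂ_[p] := IntermediateField.adjoin E {ϖ}
  have hmem : ∀ z ∈ A, ∃ a ∈ E, ∃ b ∈ E, z = a + b * ϖ := by
    intro z hz
    apply ram2_mem' E h2E
    rw [← IntermediateField.adjoin_simple_toSubalgebra_of_isAlgebraic hint.isAlgebraic]
    exact hz
  have hfinA : FiniteDimensional E A := IntermediateField.adjoin.finiteDimensional hint
  have hEev : ∀ z ∈ E, z ≠ 0 → ∃ j : ℤ, ‖z‖ = ‖ϖ‖ ^ (2 * j) := by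
    intro z hz hz0
    obtain ⟨j, hj⟩ := hall z hz hz0
    refine ⟨j, ?_⟩
    rw [hj, ← hnorm, zpow_mul]
    norm_cast
  refine ⟨A.restrictScalars ℚ_[p], ?_, ?_, ϖ, ?_, hϖpos, hϖlt, ?_, hEev⟩
  · have : FiniteDimensional ℚ_[p] A := FiniteDimensional.trans ℚ_[p] E A
    exact this
  · intro z hz
    exact A.algebraMap_mem ⟨z, hz⟩
  · exact IntermediateField.mem_adjoin_simple_self E ϖ
  · intro z hz hz0
    obtain ⟨a, ha, b, hb, rfl⟩ := hmem z hz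
    rcases eq_or_ne a 0 with rfl | ha0
    · have hb0 : b ≠ 0 := by
        rintro rfl
        simp at hz0
      obtain ⟨j, hj⟩ := hEev b hb hb0
      refine ⟨2 * j + 1, ?_⟩
      rw [zero_add, norm_mul, hj, zpow_add_one₀ hϖpos.ne']
    · rcases eq_or_ne b 0 with rfl | hb0
      · obtain ⟨j, hj⟩ := hEev a ha ha0
        exact ⟨2 * j, by rw [zero_mul, add_zero, hj]⟩
      · obtain ⟨j, hj⟩ := hEev a ha ha0
        obtain ⟨l, hl⟩ := hEev b hb hb0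
        have hbϖ : ‖b * ϖ‖ = ‖ϖ‖ ^ (2 * l + 1) := by
          rw [norm_mul, hl, zpow_add_one₀ hϖpos.ne']
        have hne : ‖a‖ ≠ ‖b * ϖ‖ := by
          rw [hj, hbϖ]
          intro h
          have := zpow_right_injective₀ hϖpos hϖlt.ne h
          omega
        have hmax : ‖a + b * ϖ‖ = max ‖a‖ ‖b * ϖ‖ :=
          IsUltrametricDist.norm_add_eq_max_of_norm_ne_norm hne
        rcases max_choice ‖a‖ ‖b * ϖ‖ with h | h
        · exact ⟨2 * j, by rw [hmax, h, hj]⟩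
        · exact ⟨2 * l + 1, by rw [hmax, h, hbϖ]⟩

end Pool.Agent.Helper22.TW
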